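import Pool.Agent.W935.SK.Stm

/-!
# A certificate excludes all other zeros
-/

set_option autoImplicit false

namespace Pool.Agent.W891.SK

open Polynomial Finset Pool.Agent.H884R2.Sko Pool.Agent.W935.SK

/-- the functional which maps `X ^ n` to `w n` -/
noncomputable def ph (w : ℕ → ℤ) : ℤ[X] →+ ℤ where
  toFun f := f.sum fun n r => r * w n
  map_zero' := by simp
  map_add' f g := Polynomial.sum_add_index f g _ (by simp) (by intros; ring)

theorem ph_mono (w : ℕ → ℤ) (n : ℕ) (r : ℤ) : ph w (monomial n r) = r * w n :=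
  Polynomial.sum_monomial_index r (fun n r => r * w n) (by simp)

theorem ph_C_X (w : ℕ → ℤ) (n : ℕ) (r : ℤ) : ph w (C r * X ^ n) = r * w n := by
  rw [C_mul_X_pow_eq_monomial, ph_mono]

theorem ph_X (w : ℕ → ℤ) (n : ℕ) : ph w (X ^ n) = w n := by
  have h := ph_C_X w n 1
  rwa [C_1, one_mul, one_mul] at h

theorem ph_C_mul (w : ℕ → ℤ) (s : ℤ) (f : ℤ[X]) : ph w (C s * f) = s * ph w f := by
  induction f using Polynomial.induction_on' with
  | add f g hf hg => rw [mul_add, map_add, map_add, hf, hg, mul_add]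
  | monomial n r => rw [C_mul_monomial, ph_mono, ph_mono, mul_assoc]

theorem ph_C (w : ℕ → ℤ) (s : ℤ) : ph w (C s) = s * w 0 := by
  have h := ph_C_X w 0 s
  rwa [pow_zero, mul_one] at h

theorem ph_chi {d : ℕ} (c a : Fin d → ℤ) (g : ℤ[X]) : ph (seq c a) (chi c * g) = 0 := by
  induction g using Polynomial.induction_on' with
  | add f g hf hg => rw [mul_add, map_add, hf, hg, add_zero]
  | monomial n r =>
    have h1 : chi c * monomial n r =
        C r * X ^ (n + d) - ∑ i : Fin d, C (r * c i) * X ^ (n + (i : ℕ)) := by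
      unfold chi
      rw [← C_mul_X_pow_eq_monomial, sub_mul, Finset.sum_mul]
      congr 1
      · ring
      · refine Finset.sum_congr rfl fun i _ => ?_
        rw [C_mul]
        ring
    rw [h1, map_sub, map_sum, ph_C_X, seq_sol, Finset.mul_sum, sub_eq_zero]
    refine Finset.sum_congr rfl fun i _ => ?_
    rw [ph_C_X]
    ring

/-- raising to the power `q` -/
theorem powq {A : Type*} [CommRing A] (q w : ℕ) (hq : q.Prime) (hq3 : 3 ≤ q) (hw : 1 ≤ w)
    (x y : A) : ∃ G : A, (x + (q : A) ^ w * y) ^ q =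
      x ^ q + (q : A) ^ (w + 1) * (x ^ (q - 1) * y + q * G) := by
  have h1 : ∀ m ∈ Finset.range (q - 1), ((q : A) ^ (w + 2)) ∣
      ((q : A) ^ w * y) ^ (m + 1 + 1) * x ^ (q - (m + 1 + 1)) * (q.choose (m + 1 + 1) : A) := by
    intro m hm
    rw [Finset.mem_range] at hm
    have h2 : q ^ (w + 2) ∣ q ^ (w * (m + 1 + 1)) * q.choose (m + 1 + 1) := by
      rcases Nat.lt_or_ge (m + 1 + 1) q with h | h
      · obtain ⟨z, hz⟩ := hq.dvd_choose_self (Nat.succ_ne_zero (m + 1)) h
        rw [hz, ← mul_assoc, ← pow_succ]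
        refine Dvd.dvd.mul_right (pow_dvd_pow q ?_) z
        nlinarith
      · have h3 : m + 1 + 1 = q := by omega
        rw [h3]
        refine Dvd.dvd.mul_right (pow_dvd_pow q ?_) _
        nlinarith
    obtain ⟨z, hz⟩ := h2
    have h3 : (q : A) ^ (w * (m + 1 + 1)) * (q.choose (m + 1 + 1) : A) =
        (q : A) ^ (w + 2) * z := by exact_mod_cast congrArg (Nat.cast (R := A)) hz
    refine ⟨z * y ^ (m + 1 + 1) * x ^ (q - (m + 1 + 1)), ?_⟩
    calc ((q : A) ^ w * y) ^ (m + 1 + 1) * x ^ (q - (m + 1 + 1)) * (q.choose (m + 1 + 1) : A)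
        = ((q : A) ^ (w * (m + 1 + 1)) * (q.choose (m + 1 + 1) : A)) * y ^ (m + 1 + 1) *
          x ^ (q - (m + 1 + 1)) := by rw [mul_pow, ← pow_mul]; ring
      _ = _ := by rw [h3]; ring
  obtain ⟨G, hG⟩ := Finset.dvd_sum h1
  refine ⟨G, ?_⟩
  have h4 : (x + (q : A) ^ w * y) ^ q = ((q : A) ^ w * y + x) ^ q := by rw [add_comm]
  rw [h4, add_pow]
  obtain ⟨k, rfl⟩ : ∃ k, q = k + 1 := ⟨q - 1, by omega⟩
  rw [Nat.add_sub_cancel] at hG ⊢
  rw [Finset.sum_range_succ', Finset.sum_range_succ', hG]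
  simp only [zero_add, pow_one, pow_zero, Nat.sub_zero, Nat.choose_zero_right, Nat.cast_one,
    mul_one, one_mul, Nat.choose_one_right, Nat.add_sub_cancel]
  ring

/-- the powers of `lam + q ^ v B` -/
theorem powj {A : Type*} [CommRing A] (q v : ℕ) (hq : q.Prime) (hq3 : 3 ≤ q) (hv : 1 ≤ v)
    (lam : ℤ) (hl : ¬ (q : ℤ) ∣ lam) (B : A) (j' : ℕ) (hj : ¬ q ∣ j') (e : ℕ) :
    ∃ (lam' kap : ℤ) (G : A), ¬ (q : ℤ) ∣ lam' ∧ ¬ (q : ℤ) ∣ kap ∧
      ((lam : A) + (q : A) ^ v * B) ^ (j' * q ^ e) =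
        (lam' : A) + (q : A) ^ (v + e) * ((kap : A) * B + q * G) := by
  have hqp : Prime (q : ℤ) := Nat.prime_iff_prime_int.1 hq
  induction e with
  | zero =>
    obtain ⟨k, hk⟩ := Polynomial.powAddExpansion (lam : A) ((q : A) ^ v * B) j'
    obtain ⟨v', rfl⟩ : ∃ v', v = v' + 1 := ⟨v - 1, by omega⟩
    refine ⟨lam ^ j', j' * lam ^ (j' - 1), k * (q : A) ^ v' * B ^ 2, ?_, ?_, ?_⟩
    · exact fun h => hl (hqp.dvd_of_dvd_pow h)
    · intro h
      rcases hqp.dvd_or_dvd h with h1 | h1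
      · exact hj (by exact_mod_cast h1)
      · exact hl (hqp.dvd_of_dvd_pow h1)
    · rw [pow_zero, mul_one, add_zero, hk]
      push_cast
      ring
  | succ e ih =>
    obtain ⟨lam', kap, G, h1, h2, h3⟩ := ih
    obtain ⟨G', hG'⟩ := powq q (v + e) hq hq3 (by omega) (lam' : A) ((kap : A) * B + q * G)
    refine ⟨lam' ^ q, lam' ^ (q - 1) * kap, (lam' : A) ^ (q - 1) * G + G', ?_, ?_, ?_⟩
    · exact fun h => h1 (hqp.dvd_of_dvd_pow h)
    · intro h
      rcases hqp.dvd_or_dvd h with h4 | h4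
      · exact h1 (hqp.dvd_of_dvd_pow h4)
      · exact h2 h4
    · rw [pow_succ, ← mul_assoc, pow_mul, h3, hG']
      push_cast
      ring

theorem sound : S_SOUND := by
  intro d c a q b v lam hd hC n hn
  have hqp : Prime (q : ℤ) := Nat.prime_iff_prime_int.1 hC.pr
  set t : ℤ[X] := (lam : ℤ[X]) with ht
  -- the remainder
  set r : ℤ[X] := X ^ b %ₘ chi c with hr
  have hdeg : r.degree < d := by
    have h1 := degree_modByMonic_lt (X ^ b : ℤ[X]) (chi_monic c)
    rwa [degree_eq_natDegree (chi_monic c).ne_zero, chi_natDegree] at h1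
  have hdiv : (X ^ b : ℤ[X]) = r + chi c * (X ^ b /ₘ chi c) :=
    (modByMonic_add_div (X ^ b : ℤ[X]) (chi c)).symm
  have hphr : ∀ e : Fin d → ℤ, seq c e b = ∑ i : Fin d, r.coeff i * e i := by
    intro e
    rw [← ph_X (seq c e) b, hdiv, map_add, ph_chi, add_zero]
    have h1 : r = ∑ i : Fin d, C (r.coeff i) * X ^ (i : ℕ) := by
      rw [Fin.sum_univ_eq_sum_range (fun i => C (r.coeff i) * X ^ i) d]
      refine r.as_sum_range_C_mul_X_pow' ?_
      by_cases h0 : r = 0
      · rw [h0, natDegree_zero]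
        omega
      · exact (natDegree_lt_iff_degree_lt h0).2 hdeg
    conv_lhs => rw [h1]
    rw [map_sum]
    refine Finset.sum_congr rfl fun i _ => ?_
    rw [ph_C_X, seq_init]
  have hB : ∃ B : ℤ[X], r = (lam : ℤ[X]) + (q : ℤ[X]) ^ v * B := by
    have h1 : C ((q : ℤ) ^ v) ∣ r - C lam := by
      rw [C_dvd_iff_dvd_coeff]
      intro i
      rw [coeff_sub]
      rcases Nat.lt_or_ge i d with h | h
      · have h2 := hC.per (Pi.single ⟨i, h⟩ 1)
        rw [hphr] at h2
        have h3 : ∑ j : Fin d, r.coeff j * (Pi.single (⟨i, h⟩ : Fin d) (1 : ℤ) : Fin d → ℤ) j =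
            r.coeff i := by
          rw [Finset.sum_eq_single (⟨i, h⟩ : Fin d)]
          · simp
          · intro j _ hj
            rw [Pi.single_eq_of_ne hj, mul_zero]
          · intro h'
            exact absurd (Finset.mem_univ _) h'
        have h4 : seq c (Pi.single (⟨i, h⟩ : Fin d) (1 : ℤ) : Fin d → ℤ) 0 =
            if i = 0 then 1 else 0 := by
          have h5 := seq_init c (Pi.single (⟨i, h⟩ : Fin d) (1 : ℤ) : Fin d → ℤ) ⟨0, by omega⟩
          simp only at h5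
          rw [h5]
          by_cases hi : i = 0
          · subst hi
            simp
          · rw [if_neg hi, Pi.single_eq_of_ne]
            intro h6
            exact hi (Fin.mk.inj h6).symm
        rw [h3, h4] at h2
        rw [coeff_C]
        by_cases hi : i = 0
        · simpa [hi] using h2
        · simpa [hi] using h2
      · rw [coeff_eq_zero_of_degree_lt (hdeg.trans_le (by exact_mod_cast h)), coeff_C,
          if_neg (by omega), sub_zero]
        exact dvd_zero _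
    obtain ⟨B, hB⟩ := h1
    refine ⟨B, ?_⟩
    rw [sub_eq_iff_eq_add] at hB
    rw [hB]
    simp [add_comm]
  obtain ⟨B, hB⟩ := hB
  have hqC : ∀ m : ℕ, ((q : ℤ[X]) ^ m) = C ((q : ℤ) ^ m) := fun m => by simp
  have hlC : ∀ z : ℤ, (z : ℤ[X]) = C z := fun z => by simp
  have hpow : ∀ j : ℕ, chi c ∣ X ^ (b * j) - ((lam : ℤ[X]) + (q : ℤ[X]) ^ v * B) ^ j := by
    intro j
    rw [pow_mul]
    refine dvd_trans ?_ (sub_dvd_pow_sub_pow _ _ j)
    rw [← hB]
    exact ⟨X ^ b /ₘ chi c, by rw [sub_eq_iff_eq_add']; exact hdiv⟩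
  have hu0 : ph (seq c a) 1 = 0 := by
    have h1 := ph_C (seq c a) 1
    rw [C_1, hC.zero, mul_zero] at h1
    exact h1
  -- the value at `b`
  have hub : seq c a b = (q : ℤ) ^ v * ph (seq c a) B := by
    rw [← ph_X (seq c a) b, hdiv, map_add, ph_chi, add_zero, hB, map_add, hlC, ph_C, hC.zero,
      mul_zero, zero_add, hqC, ph_C_mul]
  have hphB : ¬ (q : ℤ) ∣ ph (seq c a) B := by
    intro h
    apply hC.top
    rw [hub, pow_succ]
    exact mul_dvd_mul_left _ h
  -- multiples of `b`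
  have hmul : ∀ j, 1 ≤ j → seq c a (b * j) ≠ 0 := by
    intro j hj h0
    obtain ⟨e, j', hj', hjj⟩ := Nat.exists_eq_pow_mul_and_not_dvd (n := j) (by omega) q
      hC.pr.ne_one
    obtain ⟨lam', kap, G, h1, h2, h3⟩ := powj q v hC.pr hC.odd hC.v1 lam hC.unit B j' hj' e
    obtain ⟨g, hg⟩ := hpow j
    rw [sub_eq_iff_eq_add] at hg
    rw [← ph_X (seq c a) (b * j), hg, map_add, ph_chi, zero_add, hjj, mul_comm (q ^ e) j', h3,
      map_add, hlC, ph_C, hC.zero, mul_zero, zero_add, hqC, ph_C_mul, map_add, hlC, ph_C_mul] at h0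
    have h4 : ph (seq c a) ((q : ℤ[X]) * G) = q * ph (seq c a) G := by
      have h5 := hqC 1
      rw [pow_one, pow_one] at h5
      rw [h5, ph_C_mul]
    rw [h4] at h0
    rcases mul_eq_zero.1 h0 with h5 | h5
    · have h6 := hC.pr.pos
      exact absurd h5 (pow_ne_zero _ (by exact_mod_cast h6.ne'))
    · have h6 : (q : ℤ) ∣ kap * ph (seq c a) B := ⟨- ph (seq c a) G, by linarith⟩
      rcases hqp.dvd_or_dvd h6 with h7 | h7
      · exact h2 h7
      · exact hphB h7
  -- the other classes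
  have hcls : ∀ j s, 0 < s → s < b → ¬ (q : ℤ) ∣ seq c a (b * j + s) := by
    intro j s hs0 hsb h0
    obtain ⟨g, hg⟩ := hpow j
    have h1 : (q : ℤ[X]) ∣ ((lam : ℤ[X]) + (q : ℤ[X]) ^ v * B) ^ j - (lam : ℤ[X]) ^ j := by
      refine dvd_trans ?_ (sub_dvd_pow_sub_pow _ _ j)
      rw [add_sub_cancel_left]
      exact Dvd.dvd.mul_right (dvd_pow_self _ (by have := hC.v1; omega)) _
    obtain ⟨g', hg'⟩ := h1
    have h2 : (X : ℤ[X]) ^ (b * j + s) = chi c * (g * X ^ s) + C (q : ℤ) * (g' * X ^ s) +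
        C (lam ^ j) * X ^ s := by
      have h3 : (X : ℤ[X]) ^ (b * j) = chi c * g + (q : ℤ[X]) * g' + (lam : ℤ[X]) ^ j := by
        linear_combination hg + hg'
      have h4 : C (q : ℤ) = (q : ℤ[X]) := by simp
      have h5 : C (lam ^ j) = (lam : ℤ[X]) ^ j := by simp
      rw [pow_add, h3, h4, h5]
      ring
    have h3 : seq c a (b * j + s) = q * ph (seq c a) (g' * X ^ s) + lam ^ j * seq c a s := by
      rw [← ph_X (seq c a) (b * j + s), h2, map_add, map_add, ph_chi, zero_add, ph_C_mul,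
        ph_C_X]
    rw [h3] at h0
    have h4 : (q : ℤ) ∣ lam ^ j * seq c a s := (dvd_add_right (dvd_mul_right _ _)).1 h0
    rcases hqp.dvd_or_dvd h4 with h5 | h5
    · exact hC.unit (hqp.dvd_of_dvd_pow h5)
    · exact hC.cls s hs0 hsb h5
  intro h0
  have hb := hC.b1
  have h1 := Nat.div_add_mod n b
  rcases Nat.eq_zero_or_pos (n % b) with h2 | h2
  · rw [h2, add_zero] at h1
    refine hmul (n / b) ?_ (by rw [h1]; exact h0)
    by_contra h3
    have h4 : n / b = 0 := Nat.lt_one_iff.1 (not_le.1 h3)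
    rw [h4, mul_zero] at h1
    omega
  · refine hcls (n / b) (n % b) h2 (Nat.mod_lt _ hb) ?_
    rw [h1, h0]
    exact dvd_zero _

end Pool.Agent.W891.SK
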